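import Mathlib
import Pool.Agent.Lib_helper92.Part4Defs
import Pool.Agent.Lib_helper92.Part4M

/-!
# Automaticity of 4-divisibility of colored 4-ary partition counts

For every positive integer `m` that is not `6` modulo `8`, the sequence `φ₄(S_{4,m}(n))` is
4-automatic.  (The proof shows that for `n ≥ 1` its value only depends on the 2-adic valuation of
`n`, and is a periodic function of this valuation from `1` on.)
-/

set_option autoImplicit false

namespace Pool.Agent.Results.MP_b3d406_nt.Automatic

open Pool.Agent.Lib_helper92.Part4

/-- Affirmative answer to Q1: for every positive integer `m` with `m ≢ 6 (mod 8)` the sequence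
`(φ₄(S_{4,m}(n)))_{n ≥ 0}` is 4-automatic. -/
theorem result : ∀ m : ℕ, 0 < m → ¬ m ≡ 6 [MOD 8] →
    Is4Automatic (fun n => phi4 (S 4 m n)) := by
  intro m hm h6
  obtain ⟨g, hg, he⟩ := exists_pattern m hm h6
  exact automatic_of_pattern _ g hg he

end Pool.Agent.Results.MP_b3d406_nt.Automatic
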